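import Pool.Agent.Helper42.SLR.Defs

/-!
# Project SL, packet DETB: upper bound for interpolation determinants
-/

set_option linter.unusedSectionVars false

namespace Pool.Agent.Helper48.SLR

open Module Pool.Agent.Helper42.SLR

universe v

section
variable {k : Type v} [NormedField k] [IsUltrametricDist k]

theorem norm_prod_le_one {ι : Type*} (s : Finset ι) (a : ι → k) (ha : ∀ i ∈ s, ‖a i‖ ≤ 1) :
    ‖∏ i ∈ s, a i‖ ≤ 1 := by
  rw [norm_prod]
  exact Finset.prod_le_one (fun _ _ ↦ norm_nonneg _) ha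

theorem prod_sub_prod_le {ι : Type*} (s : Finset ι) (a b : ι → k) (ε : ℝ) (hε : 0 ≤ ε)
    (ha : ∀ i, ‖a i‖ ≤ 1) (hb : ∀ i, ‖b i‖ ≤ 1) (hab : ∀ i, ‖a i - b i‖ ≤ ε) :
    ‖∏ i ∈ s, a i - ∏ i ∈ s, b i‖ ≤ ε := by
  classical
  induction s using Finset.induction_on with
  | empty => simpa using hε
  | insert i s hi ih =>
    rw [Finset.prod_insert hi, Finset.prod_insert hi]
    have h : a i * ∏ x ∈ s, a x - b i * ∏ x ∈ s, b x =
      a i * (∏ x ∈ s, a x - ∏ x ∈ s, b x) + (a i - b i) * ∏ x ∈ s, b x := by ring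
    rw [h]
    refine (IsUltrametricDist.norm_add_le_max _ _).trans (max_le ?_ ?_)
    · rw [norm_mul]
      calc _ ≤ 1 * ε := mul_le_mul (ha i) ih (norm_nonneg _) zero_le_one
        _ = ε := one_mul _
    · rw [norm_mul]
      calc _ ≤ ε * 1 := mul_le_mul (hab i) (norm_prod_le_one s b fun i _ ↦ hb i)
            (norm_nonneg _) hε
        _ = ε := mul_one _

theorem norm_sign_smul {l : ℕ} (σ : Equiv.Perm (Fin l)) (x : k) :
    ‖Equiv.Perm.sign σ • x‖ = ‖x‖ := by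
  rcases Int.units_eq_one_or (Equiv.Perm.sign σ) with h | h
  · rw [h, one_smul]
  · rw [h, Units.neg_smul, one_smul, norm_neg]

theorem det_sub_det_le {l : ℕ} (A B : Matrix (Fin l) (Fin l) k) (ε : ℝ) (hε : 0 ≤ ε)
    (ha : ∀ i j, ‖A i j‖ ≤ 1) (hb : ∀ i j, ‖B i j‖ ≤ 1) (hab : ∀ i j, ‖A i j - B i j‖ ≤ ε) :
    ‖A.det - B.det‖ ≤ ε := by
  rw [Matrix.det_apply, Matrix.det_apply, ← Finset.sum_sub_distrib]
  refine IsUltrametricDist.norm_sum_le_of_forall_le_of_nonneg hε (fun σ _ ↦ ?_)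
  rw [← smul_sub, norm_sign_smul]
  exact prod_sub_prod_le _ _ _ ε hε (fun i ↦ ha _ _) (fun i ↦ hb _ _) (fun i ↦ hab _ _)

theorem det_le_one {l : ℕ} (A : Matrix (Fin l) (Fin l) k) (ha : ∀ i j, ‖A i j‖ ≤ 1) :
    ‖A.det‖ ≤ 1 := by
  rw [Matrix.det_apply]
  refine IsUltrametricDist.norm_sum_le_of_forall_le_of_nonneg zero_le_one (fun σ _ ↦ ?_)
  rw [norm_sign_smul]
  exact norm_prod_le_one _ _ fun i _ ↦ ha _ _

theorem eval_le_one {N : ℕ} (P : MvPolynomial (Fin N) k) {r : ℝ} (hr0 : 0 ≤ r) (hr1 : r ≤ 1)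
    (hP : ∀ τ, ‖P.coeff τ‖ ≤ r ^ (∑ n, τ n)) (z : Fin N → k) (hz : ∀ n, ‖z n‖ ≤ 1) :
    ‖MvPolynomial.eval z P‖ ≤ 1 := by
  rw [MvPolynomial.eval_eq']
  refine IsUltrametricDist.norm_sum_le_of_forall_le_of_nonneg zero_le_one (fun τ _ ↦ ?_)
  rw [norm_mul]
  calc _ ≤ (1 : ℝ) * 1 := mul_le_mul ((hP τ).trans (pow_le_one₀ hr0 hr1))
        (norm_prod_le_one _ _ fun n _ ↦ by
          rw [norm_pow]; exact pow_le_one₀ (norm_nonneg _) (hz n)) (norm_nonneg _) zero_le_one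
    _ = 1 := one_mul _

theorem det_eval {N l m : ℕ} {r : ℝ} (hr0 : 0 ≤ r) (hr1 : r ≤ 1)
    (hm : ∀ τ : Fin l → (Fin N →₀ ℕ), Function.Injective τ → m ≤ ∑ i, ∑ n, τ i n)
    (P : Fin l → MvPolynomial (Fin N) k) (hP : ∀ i τ, ‖(P i).coeff τ‖ ≤ r ^ (∑ n, τ n))
    (z : Fin l → Fin N → k) (hz : ∀ j n, ‖z j n‖ ≤ 1) :
    ‖(Matrix.of fun i j ↦ MvPolynomial.eval (z j) (P i)).det‖ ≤ r ^ m := by
  classical
  set v : (Fin N →₀ ℕ) → Fin l → k := fun τ j ↦ ∏ n, z j n ^ τ n with hv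
  have h1 : (Matrix.of fun i j ↦ MvPolynomial.eval (z j) (P i)).det =
      (Matrix.detRowAlternating (R := k) (n := Fin l)).toMultilinearMap
        (fun i ↦ ∑ τ ∈ (P i).support, (P i).coeff τ • v τ) := by
    change Matrix.det _ = Matrix.det _
    congr 1
    ext i j
    rw [Matrix.of_apply, MvPolynomial.eval_eq']
    simp [hv, Finset.sum_apply]
  rw [h1, MultilinearMap.map_sum_finset]
  refine IsUltrametricDist.norm_sum_le_of_forall_le_of_nonneg (pow_nonneg hr0 _) (fun τ _ ↦ ?_)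
  rw [MultilinearMap.map_smul_univ, smul_eq_mul, norm_mul]
  by_cases hτ : Function.Injective τ
  · have h2 : ‖∏ i, (P i).coeff (τ i)‖ ≤ r ^ (∑ i, ∑ n, τ i n) := by
      rw [norm_prod, ← Finset.prod_pow_eq_pow_sum]
      exact Finset.prod_le_prod (fun _ _ ↦ norm_nonneg _) fun i _ ↦ hP i _
    have h3 : r ^ (∑ i, ∑ n, τ i n) ≤ r ^ m := pow_le_pow_of_le_one hr0 hr1 (hm τ hτ)
    have h4 : ‖(Matrix.detRowAlternating (R := k) (n := Fin l)).toMultilinearMap
        (fun i ↦ v (τ i))‖ ≤ 1 := by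
      change ‖Matrix.det (fun i ↦ v (τ i))‖ ≤ 1
      refine det_le_one _ fun i j ↦ ?_
      exact norm_prod_le_one _ _ fun n _ ↦ by
        rw [norm_pow]; exact pow_le_one₀ (norm_nonneg _) (hz j n)
    calc _ ≤ r ^ m * 1 := mul_le_mul (h2.trans h3) h4 (norm_nonneg _) (pow_nonneg hr0 _)
      _ = r ^ m := mul_one _
  · have h5 : (Matrix.detRowAlternating (R := k) (n := Fin l)).toMultilinearMap
        (fun i ↦ v (τ i)) = 0 := by
      apply (Matrix.detRowAlternating (R := k) (n := Fin l)).map_eq_zero_of_not_injective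
      intro hinj
      exact hτ fun a b hab ↦ hinj (by simp only [hab])
    rw [h5, norm_zero, mul_zero]
    exact pow_nonneg hr0 _

end

/-- Upper bound for interpolation determinants. -/
theorem detb : S_DETB.{v} := by
  intro k _ _ N l m r hr0 hr1 hm f z hf hz
  choose P hP hPf using fun i ↦ hf i m
  have hev : ∀ i j, ‖MvPolynomial.eval (z j) (P i)‖ ≤ 1 := fun i j ↦
    eval_le_one (P i) hr0 hr1 (hP i) (z j) (hz j)
  have hrm : r ^ m ≤ 1 := pow_le_one₀ hr0 hr1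
  have hfz : ∀ i j, ‖f i (z j)‖ ≤ 1 := fun i j ↦ by
    have h : f i (z j) = (f i (z j) - MvPolynomial.eval (z j) (P i)) +
      MvPolynomial.eval (z j) (P i) := by ring
    rw [h]
    exact (IsUltrametricDist.norm_add_le_max _ _).trans
      (max_le ((hPf i (z j) (hz j)).trans hrm) (hev i j))
  have h1 := det_sub_det_le (Matrix.of fun i j ↦ f i (z j))
    (Matrix.of fun i j ↦ MvPolynomial.eval (z j) (P i)) (r ^ m) (pow_nonneg hr0 _)
    (fun i j ↦ hfz i j) (fun i j ↦ hev i j) (fun i j ↦ hPf i (z j) (hz j))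
  have h2 := det_eval hr0 hr1 hm P hP z hz
  have h3 : (Matrix.of fun i j ↦ f i (z j)).det =
    ((Matrix.of fun i j ↦ f i (z j)).det -
      (Matrix.of fun i j ↦ MvPolynomial.eval (z j) (P i)).det) +
      (Matrix.of fun i j ↦ MvPolynomial.eval (z j) (P i)).det := by ring
  rw [h3]
  exact (IsUltrametricDist.norm_add_le_max _ _).trans (max_le h1 h2)

end Pool.Agent.Helper48.SLR
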